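import Pool.Agent.Helper68.QC.St2

/-!
# Project QD, part M, module CUT: cutting off
-/

open MeasureTheory Set Filter Topology Complex
open scoped ContDiff ComplexConjugate ENNReal

namespace Pool.Agent.Helper16.QCM

open Pool.Agent.Helper68.QC

variable {U : Set ℂ} {f a φ ψ χ : ℂ → ℂ}

lemma cont_mul (hU : IsOpen U) (hf : ContinuousOn f U) (h : Tst U ψ) :
    Continuous (fun z => ψ z * f z) := by
  rw [continuous_iff_continuousAt]
  intro z
  by_cases hz : z ∈ tsupport ψ
  · exact h.continuous.continuousAt.mul (hf.continuousAt (hU.mem_nhds (h.sub hz)))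
  · have h0 : ψ =ᶠ[𝓝 z] 0 := notMem_tsupport_iff_eventuallyEq.1 hz
    refine ContinuousAt.congr (f := fun _ => (0 : ℂ)) continuousAt_const ?_
    filter_upwards [h0] with x hx
    simp [hx]

lemma memLp_cont_mul (hU : IsOpen U) (hf : ContinuousOn f U) (h : Tst U ψ) :
    MemLp (fun z => ψ z * f z) 2 volume :=
  (cont_mul hU hf h).memLp_of_hasCompactSupport h.cpt.mul_right

lemma memLp_mul (ha : L2 U a) (h : Tst U ψ) : MemLp (fun z => ψ z * a z) 2 volume := by
  have hS : MeasurableSet (tsupport ψ) := (isClosed_tsupport ψ).measurableSet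
  have h1 := ha _ h.sub h.cpt
  obtain ⟨C, hC⟩ := h.continuous.bounded_above_of_compact_support h.cpt
  have h2 : MemLp (fun z => ψ z * a z) 2 (volume.restrict (tsupport ψ)) := by
    refine h1.of_le_mul (c := C) (h.continuous.aestronglyMeasurable.mul h1.1)
      (ae_of_all _ fun z => ?_)
    rw [norm_mul]
    exact mul_le_mul_of_nonneg_right (hC z) (norm_nonneg _)
  rw [← memLp_indicator_iff_restrict hS] at h2
  have e : (tsupport ψ).indicator (fun z => ψ z * a z) = fun z => ψ z * a z := by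
    refine indicator_eq_self.2 fun z hz => ?_
    by_contra h3
    exact hz (by simp [image_eq_zero_of_notMem_tsupport h3])
  rwa [e] at h2

lemma key (hU : IsOpen U) (hc : ContinuousOn f U) (ha : L2 U a) (hχ : Tst U χ)
    (D : (ℂ → ℂ) → ℂ → ℂ) (hD : ∀ V φ, Tst V φ → Tst V (D φ))
    (hm : ∀ (f g : ℂ → ℂ) (z : ℂ), DifferentiableAt ℝ f z → DifferentiableAt ℝ g z →
      D (fun x => f x * g x) z = D f z * g z + f z * D g z)
    (hw : ∀ φ, Tst U φ → ∫ z, f z * D φ z = - ∫ z, a z * φ z) (hφ : Tst univ φ) :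
    ∫ z, χ z * f z * D φ z = - ∫ z, (χ z * a z + D χ z * f z) * φ z := by
  have h1 := hw _ (hχ.mul_right hφ.smooth)
  have i1 : Integrable (fun z => χ z * f z * D φ z) :=
    ((cont_mul hU hc hχ).mul (hD _ _ hφ).continuous).integrable_of_hasCompactSupport
      (hχ.cpt.mul_right.mul_right)
  have i2 : Integrable (fun z => D χ z * f z * φ z) :=
    ((cont_mul hU hc (hD _ _ hχ)).mul hφ.continuous).integrable_of_hasCompactSupport
      ((hD _ _ hχ).cpt.mul_right.mul_right)
  have i3 : Integrable (fun z => χ z * a z * φ z) :=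
    (memLp_mul ha hχ).integrable_mul
      (hφ.continuous.memLp_of_hasCompactSupport hφ.cpt : MemLp φ 2 volume)
  have e1 : ∫ z, f z * D (fun x => χ x * φ x) z =
      (∫ z, χ z * f z * D φ z) + ∫ z, D χ z * f z * φ z := by
    rw [← integral_add i1 i2]
    congr 1
    ext z
    rw [hm χ φ z (hχ.differentiable z) (hφ.differentiable z)]
    ring
  have e2 : ∫ z, a z * (χ z * φ z) = ∫ z, χ z * a z * φ z := by
    congr 1
    ext z
    ring
  have e3 : ∫ z, (χ z * a z + D χ z * f z) * φ z =
      (∫ z, χ z * a z * φ z) + ∫ z, D χ z * f z * φ z := by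
    rw [← integral_add i3 i2]
    congr 1
    ext z
    ring
  rw [e1, e2] at h1
  rw [e3]
  linear_combination h1

/-- Module CUT. -/
theorem pCUT : Pool.Agent.Helper68.QC.StCUT := by
  intro U f a b χ hU h hχ
  have ma : MemLp (fun z => χ z * a z + dz χ z * f z) 2 volume :=
    (memLp_mul h.l2a hχ).add (memLp_cont_mul hU h.cont hχ.hdz)
  have mb : MemLp (fun z => χ z * b z + dzb χ z * f z) 2 volume :=
    (memLp_mul h.l2b hχ).add (memLp_cont_mul hU h.cont hχ.hdzb)
  refine ⟨cont_mul hU h.cont hχ, ma, mb, (cont_mul hU h.cont hχ).continuousOn,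
    fun K _ _ => ma.restrict K, fun K _ _ => mb.restrict K, fun φ hφ => ?_, fun φ hφ => ?_⟩
  · exact key hU h.cont h.l2a hχ dz (fun V φ h => h.hdz) (fun f g z hf hg => dz_mul hf hg) h.dz hφ
  · exact key hU h.cont h.l2b hχ dzb (fun V φ h => h.hdzb) (fun f g z hf hg => dzb_mul hf hg)
      h.dzb hφ

end Pool.Agent.Helper16.QCM
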