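import Pool.Agent.Helper68.QC.St3

/-!
# Project QD, part M, module LCV: the change of variables formula passes to the limit
-/

open MeasureTheory Set Filter Topology Complex
open scoped ContDiff ComplexConjugate ENNReal

namespace Pool.Agent.Helper16.QCM

open Pool.Agent.Helper68.QC

lemma intOn_sq {a : ℂ → ℂ} (ha : L2 univ a) (R : ℝ) :
    IntegrableOn (fun z => ‖a z‖ ^ 2) (Metric.closedBall (0 : ℂ) R) :=
  (ha (Metric.closedBall 0 R) (subset_univ _) (isCompact_closedBall 0 R)).integrable_norm_pow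
    (by norm_num)

lemma abs_jc_le (a b : ℂ → ℂ) (z : ℂ) : |jc a b z| ≤ ‖a z‖ ^ 2 + ‖b z‖ ^ 2 := by
  unfold jc
  rw [abs_le]
  constructor <;> nlinarith [sq_nonneg ‖a z‖, sq_nonneg ‖b z‖]

lemma intOn_jc {a b G : ℂ → ℂ} (ha : L2 univ a) (hb : L2 univ b) (hG : Continuous G) (R : ℝ) :
    IntegrableOn (fun z => G z * (jc a b z : ℂ)) (Metric.closedBall (0 : ℂ) R) := by
  have h1 : IntegrableOn (fun z => jc a b z) (Metric.closedBall (0 : ℂ) R) :=
    (intOn_sq ha R).sub (intOn_sq hb R)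
  have h2 : IntegrableOn (fun z => (jc a b z : ℂ)) (Metric.closedBall (0 : ℂ) R) := h1.ofReal
  exact h2.continuousOn_mul hG.continuousOn (isCompact_closedBall 0 R)

lemma est {W w a b G : ℂ → ℂ} (hW : Continuous W) (hw : Continuous w) (ha : L2 univ a)
    (hb : L2 univ b) (hG : Continuous G) (R B ε : ℝ)
    (hB : ∫ z in Metric.closedBall (0 : ℂ) R, (‖a z‖ ^ 2 + ‖b z‖ ^ 2) ≤ B) (hε : 0 ≤ ε)
    (hs : ∀ z ∈ Metric.closedBall (0 : ℂ) R, ‖G (w z) - G (W z)‖ ≤ ε)
    (h1 : ∀ z, z ∉ Metric.closedBall (0 : ℂ) R → G (W z) = 0)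
    (h2 : ∀ z, z ∉ Metric.closedBall (0 : ℂ) R → G (w z) = 0) :
    ‖(∫ z, G (w z) * (jc a b z : ℂ)) - ∫ z, G (W z) * (jc a b z : ℂ)‖ ≤ ε * B := by
  have e1 := setIntegral_eq_integral_of_forall_compl_eq_zero (μ := volume)
    (f := fun z => G (w z) * (jc a b z : ℂ)) (s := Metric.closedBall (0 : ℂ) R)
    (fun z hz => by simp [h2 z hz])
  have e2 := setIntegral_eq_integral_of_forall_compl_eq_zero (μ := volume)
    (f := fun z => G (W z) * (jc a b z : ℂ)) (s := Metric.closedBall (0 : ℂ) R)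
    (fun z hz => by simp [h1 z hz])
  have i1 : IntegrableOn (fun z => G (w z) * (jc a b z : ℂ)) (Metric.closedBall (0 : ℂ) R) :=
    intOn_jc (G := fun z => G (w z)) ha hb (hG.comp hw) R
  have i2 : IntegrableOn (fun z => G (W z) * (jc a b z : ℂ)) (Metric.closedBall (0 : ℂ) R) :=
    intOn_jc (G := fun z => G (W z)) ha hb (hG.comp hW) R
  have i3 : IntegrableOn (fun z => ε * (‖a z‖ ^ 2 + ‖b z‖ ^ 2)) (Metric.closedBall (0 : ℂ) R) :=
    ((intOn_sq ha R).add (intOn_sq hb R)).const_mul ε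
  rw [← e1, ← e2, ← integral_sub i1 i2]
  refine (norm_integral_le_of_norm_le i3 ?_).trans ?_
  · filter_upwards [ae_restrict_mem Metric.isClosed_closedBall.measurableSet] with z hz
    rw [← sub_mul, norm_mul, Complex.norm_real, Real.norm_eq_abs]
    exact mul_le_mul (hs z hz) (abs_jc_le a b z) (abs_nonneg _) hε
  · rw [integral_const_mul]
    exact mul_le_mul_of_nonneg_left hB hε

/-- Module LCV. -/
theorem pLCV (hLJA : StLJA) : Pool.Agent.Helper68.QC.StLCV := by
  intro k ι F W a b w a' b' hQ hw hLU hEB hWa hWb G hG hGc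
  obtain ⟨R, hR⟩ : ∃ R : ℝ, tsupport G ⊆ Metric.closedBall (0 : ℂ) R :=
    hGc.isCompact.isBounded.subset_closedBall 0
  have hR0 : ∀ ζ, G ζ ≠ 0 → ζ ∈ Metric.closedBall (0 : ℂ) R := fun ζ h =>
    hR (subset_tsupport _ h)
  obtain ⟨R₁, hR₁⟩ : ∃ R₁ : ℝ, w.symm '' Metric.closedBall (0 : ℂ) R ⊆
      Metric.closedBall (0 : ℂ) R₁ :=
    ((isCompact_closedBall (0 : ℂ) R).image w.symm.continuous).isBounded.subset_closedBall 0
  have hc : HasCompactSupport fun z => G (w z) := hGc.comp_homeomorph w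
  have hlim : Tendsto (fun i => ∫ z, G (w z) * (jc (a i) (b i) z : ℂ)) F
      (𝓝 (∫ z, G (w z) * (jc a' b' z : ℂ))) :=
    hLJA ι F (fun i => W i) a b w a' b' (fun i => (hQ i).wd) hw (fun R => (hLU R).1) hEB hWa hWb
      (fun z => G (w z)) (hG.comp w.continuous) hc
  refine tendsto_nhds_unique hlim ?_
  obtain ⟨B, hB⟩ := hEB (R₁ + 1)
  have hB1 : ∀ i, ∫ z in Metric.closedBall (0 : ℂ) (R₁ + 1), (‖a i z‖ ^ 2 + ‖b i z‖ ^ 2) ≤ |B| :=
    fun i => (hB i).trans (le_abs_self B)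
  have huc : UniformContinuous G := hGc.uniformContinuous_of_continuous hG
  have hun := huc.comp_tendstoUniformlyOn (hLU (R₁ + 1)).1
  rw [Metric.tendsto_nhds]
  intro ε hε
  have hε' : 0 < ε / (|B| + 1) := by positivity
  have ev1 := (Metric.tendstoUniformlyOn_iff.1 hun) _ hε'
  have ev2 := (Metric.tendstoUniformlyOn_iff.1 (hLU R).2) 1 one_pos
  filter_upwards [ev1, ev2] with i h1 h2
  have h3 : ∀ z, z ∉ Metric.closedBall (0 : ℂ) (R₁ + 1) → G (W i z) = 0 := by
    intro z hz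
    by_contra h
    have h4 := hR0 _ h
    have h5 := h2 _ h4
    have h6 := hR₁ (mem_image_of_mem _ h4)
    apply hz
    rw [mem_closedBall_zero_iff] at h6 ⊢
    rw [Homeomorph.symm_apply_apply, dist_eq_norm] at h5
    have h7 : z = w.symm (W i z) - (w.symm (W i z) - z) := by ring
    rw [h7]
    exact (norm_sub_le _ _).trans (by linarith)
  have h3' : ∀ z, z ∉ Metric.closedBall (0 : ℂ) (R₁ + 1) → G (w z) = 0 := by
    intro z hz
    by_contra h
    have h4 := hR0 _ h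
    have h6 := hR₁ (mem_image_of_mem _ h4)
    apply hz
    rw [Homeomorph.symm_apply_apply, mem_closedBall_zero_iff] at h6
    rw [mem_closedBall_zero_iff]
    linarith
  rw [← (hQ i).cv G hG hGc, dist_eq_norm]
  refine (est (W i).continuous w.continuous (hQ i).wd.l2a (hQ i).wd.l2b hG (R₁ + 1) |B|
    (ε / (|B| + 1)) (hB1 i) hε'.le ?_ h3 h3').trans_lt ?_
  · intro z hz
    have := h1 z hz
    rw [dist_eq_norm] at this
    exact this.le
  · have hB0 := abs_nonneg B
    rw [div_mul_eq_mul_div, div_lt_iff₀ (by positivity)]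
    nlinarith

end Pool.Agent.Helper16.QCM
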