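import Pool.Agent.Helper68.QC.St7

/-!
# Project QD, part M, module SQ2: square roots on the bidisc
-/

open MeasureTheory Set Filter Topology Complex
open scoped ContDiff ComplexConjugate ENNReal

namespace Pool.Agent.Helper16.QCM

open Pool.Agent.Helper68.QC

private lemma pos_of_conn {X : Type*} [TopologicalSpace X] {B : Set X} (hB : IsPreconnected B)
    {f : X → ℝ} (hf : ContinuousOn f B) (hne : ∀ x ∈ B, f x ≠ 0) {a b : X} (ha : a ∈ B)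
    (hb : b ∈ B) (h : 0 < f a) : 0 < f b := by
  by_contra hcon
  have h1 := hB.intermediate_value hb ha hf
  obtain ⟨x, hx, hx0⟩ := h1 ⟨not_lt.1 hcon, h.le⟩
  exact hne x hx hx0

private lemma re_ne_of_sq {h : ℂ} (hh : 0 < (h ^ 2).re) : h.re ≠ 0 := by
  intro h0
  rw [pow_two, Complex.mul_re, h0] at hh
  nlinarith [sq_nonneg h.im]

theorem pSQ2 (hSQT : StSQT) : Pool.Agent.Helper68.QC.StSQ2 := by
  intro g e hg hne he
  obtain ⟨hgc, hg1, hg2⟩ := hg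
  have h0 : (0 : ℂ) ∈ Metric.ball (0 : ℂ) 1 := Metric.mem_ball_self one_pos
  have hDo : IsOpen (Metric.ball (0 : ℂ) 1) := Metric.isOpen_ball
  have hD2 : IsOpen DD2 := hDo.prod hDo
  obtain ⟨s1, hs1d, hs1sq, hs10⟩ := hSQT 0 1 (fun z => g z 0) e one_pos (hg1 0 h0)
    (fun t ht => hne (t, 0) ⟨ht, h0⟩) he
  have hex : ∀ z : ℂ, ∃ s : ℂ → ℂ, z ∈ Metric.ball (0 : ℂ) 1 →
      DifferentiableOn ℂ s (Metric.ball 0 1) ∧ (∀ t ∈ Metric.ball (0 : ℂ) 1, s t ^ 2 = g z t) ∧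
      s 0 = s1 z := by
    intro z
    by_cases hz : z ∈ Metric.ball (0 : ℂ) 1
    · obtain ⟨s, h⟩ := hSQT 0 1 (fun w => g z w) (s1 z) one_pos (hg2 z hz)
        (fun t ht => hne (z, t) ⟨hz, ht⟩) (hs1sq z hz)
      exact ⟨s, fun _ => h⟩
    · exact ⟨0, fun h => absurd h hz⟩
  choose s hs using hex
  have key : ∀ z₀ ∈ Metric.ball (0 : ℂ) 1, ∀ w₀ ∈ Metric.ball (0 : ℂ) 1,
      ∀ᶠ p : ℂ × ℂ in 𝓝 (z₀, w₀),
        s p.1 p.2 = s z₀ p.2 * (g p.1 p.2 / g z₀ p.2) ^ (2⁻¹ : ℂ) := by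
    intro z₀ hz₀ w₀ hw₀
    obtain ⟨r, hr1, hr2⟩ := exists_between (mem_ball_zero_iff.1 hw₀)
    have hBD : Metric.closedBall (0 : ℂ) r ⊆ Metric.ball 0 1 := Metric.closedBall_subset_ball hr2
    have hr0 : 0 ≤ r := (norm_nonneg _).trans hr1.le
    have hsz : ∀ w ∈ Metric.ball (0 : ℂ) 1, s z₀ w ≠ 0 := by
      intro w hw h
      apply hne (z₀, w) ⟨hz₀, hw⟩
      show g z₀ w = 0
      rw [← (hs z₀ hz₀).2.1 w hw, h]
      simp
    have hs1z : s1 z₀ ≠ 0 := by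
      rw [← (hs z₀ hz₀).2.2]
      exact hsz 0 h0
    have hGc : ContinuousOn (fun p : ℂ × ℂ => (g p.1 p.2 / g z₀ p.2).re) DD2 := by
      refine Complex.continuous_re.comp_continuousOn (hgc.div ?_ ?_)
      · exact ((hg2 z₀ hz₀).continuousOn).comp continuousOn_snd (fun p hp => hp.2)
      · intro p hp
        exact hne (z₀, p.2) ⟨hz₀, hp.2⟩
    have hN : IsOpen (DD2 ∩ (fun p : ℂ × ℂ => (g p.1 p.2 / g z₀ p.2).re) ⁻¹' Ioi 0) :=
      hGc.isOpen_inter_preimage hD2 isOpen_Ioi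
    have hsub : ({z₀} : Set ℂ) ×ˢ Metric.closedBall (0 : ℂ) r ⊆
        DD2 ∩ (fun p : ℂ × ℂ => (g p.1 p.2 / g z₀ p.2).re) ⁻¹' Ioi 0 := by
      rintro ⟨z, w⟩ ⟨hz, hw⟩
      rw [mem_singleton_iff] at hz
      simp only at hz hw
      subst hz
      refine ⟨⟨hz₀, hBD hw⟩, ?_⟩
      show 0 < (g z w / g z w).re
      rw [div_self (hne (z, w) ⟨hz₀, hBD hw⟩), Complex.one_re]
      exact one_pos
    obtain ⟨u, v, hu, hv, hzu, hBv, huv⟩ := generalized_tube_lemma isCompact_singleton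
      (isCompact_closedBall (0 : ℂ) r) hN hsub
    have hs1c : ContinuousOn (fun z => (s1 z / s1 z₀).re) (Metric.ball (0 : ℂ) 1) :=
      Complex.continuous_re.comp_continuousOn (hs1d.continuousOn.div_const _)
    have hu2 : IsOpen (Metric.ball (0 : ℂ) 1 ∩ (fun z => (s1 z / s1 z₀).re) ⁻¹' Ioi 0) :=
      hs1c.isOpen_inter_preimage hDo isOpen_Ioi
    have hmem : (z₀, w₀) ∈ (u ∩ (Metric.ball (0 : ℂ) 1 ∩ (fun z => (s1 z / s1 z₀).re) ⁻¹' Ioi 0)) ×ˢ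
        Metric.ball (0 : ℂ) r := by
      refine ⟨⟨hzu rfl, hz₀, ?_⟩, mem_ball_zero_iff.2 hr1⟩
      show 0 < (s1 z₀ / s1 z₀).re
      rw [div_self hs1z, Complex.one_re]
      exact one_pos
    have hopen := (hu.inter hu2).prod (Metric.isOpen_ball (x := (0 : ℂ)) (ε := r))
    filter_upwards [hopen.mem_nhds hmem] with p hp
    obtain ⟨⟨hp1, hp2, hp3⟩, hp4⟩ := hp
    have hp3' : 0 < (s1 p.1 / s1 z₀).re := hp3
    have hGpos : ∀ w ∈ Metric.closedBall (0 : ℂ) r, 0 < (g p.1 w / g z₀ w).re := by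
      intro w hw
      exact (huv (⟨hp1, hBv hw⟩ : (p.1, w) ∈ u ×ˢ v)).2
    have hsq : ∀ w ∈ Metric.closedBall (0 : ℂ) r, (s p.1 w / s z₀ w) ^ 2 = g p.1 w / g z₀ w := by
      intro w hw
      rw [div_pow, (hs p.1 hp2).2.1 w (hBD hw), (hs z₀ hz₀).2.1 w (hBD hw)]
    have hc : ContinuousOn (fun w => (s p.1 w / s z₀ w).re) (Metric.closedBall (0 : ℂ) r) := by
      refine Complex.continuous_re.comp_continuousOn (ContinuousOn.div ?_ ?_ ?_)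
      · exact ((hs p.1 hp2).1.continuousOn).mono hBD
      · exact ((hs z₀ hz₀).1.continuousOn).mono hBD
      · exact fun w hw => hsz w (hBD hw)
    have hw : p.2 ∈ Metric.closedBall (0 : ℂ) r := Metric.ball_subset_closedBall hp4
    have hpos : 0 < (s p.1 p.2 / s z₀ p.2).re := by
      refine pos_of_conn (convex_closedBall (0 : ℂ) r).isPreconnected hc ?_
        (Metric.mem_closedBall_self hr0) hw ?_
      · intro w hw
        apply re_ne_of_sq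
        rw [hsq w hw]
        exact hGpos w hw
      · rw [(hs p.1 hp2).2.2, (hs z₀ hz₀).2.2]
        exact hp3'
    rw [← hsq p.2 hw, Complex.sq_cpow_two_inv hpos, mul_div_cancel₀]
    exact hsz p.2 (hBD hw)
  have hslit : ∀ z₀ ∈ Metric.ball (0 : ℂ) 1, ∀ w₀ ∈ Metric.ball (0 : ℂ) 1,
      g z₀ w₀ / g z₀ w₀ ∈ slitPlane := by
    intro z₀ hz₀ w₀ hw₀
    rw [div_self (hne (z₀, w₀) ⟨hz₀, hw₀⟩)]
    exact Complex.one_mem_slitPlane
  refine ⟨s, ⟨?_, ?_, ?_⟩, ?_, ?_⟩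
  · rintro ⟨z₀, w₀⟩ ⟨hz₀, hw₀⟩
    simp only at hz₀ hw₀
    refine ContinuousAt.continuousWithinAt ?_
    have h1 : ContinuousAt (fun p : ℂ × ℂ => s z₀ p.2) (z₀, w₀) := by
      have h2 : ContinuousAt (s z₀) w₀ := (hs z₀ hz₀).1.continuousOn.continuousAt (hDo.mem_nhds hw₀)
      exact ContinuousAt.comp (f := fun p : ℂ × ℂ => p.2) h2 continuousAt_snd
    have h2 : ContinuousAt (fun p : ℂ × ℂ => g p.1 p.2) (z₀, w₀) :=
      hgc.continuousAt (hD2.mem_nhds ⟨hz₀, hw₀⟩)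
    have h3 : ContinuousAt (fun p : ℂ × ℂ => g z₀ p.2) (z₀, w₀) := by
      have h2 : ContinuousAt (g z₀) w₀ := (hg2 z₀ hz₀).continuousOn.continuousAt (hDo.mem_nhds hw₀)
      exact ContinuousAt.comp (f := fun p : ℂ × ℂ => p.2) h2 continuousAt_snd
    have h4 : ContinuousAt (fun p : ℂ × ℂ => g p.1 p.2 / g z₀ p.2) (z₀, w₀) :=
      h2.div h3 (hne (z₀, w₀) ⟨hz₀, hw₀⟩)
    have h5 : ContinuousAt (fun p : ℂ × ℂ => (g p.1 p.2 / g z₀ p.2) ^ (2⁻¹ : ℂ)) (z₀, w₀) :=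
      ContinuousAt.comp (f := fun p : ℂ × ℂ => g p.1 p.2 / g z₀ p.2)
        (continuousAt_cpow_const (hslit z₀ hz₀ w₀ hw₀)) h4
    exact (h1.mul h5).congr ((key z₀ hz₀ w₀ hw₀).mono fun p hp => hp.symm)
  · intro w₀ hw₀ z₀ hz₀
    refine DifferentiableAt.differentiableWithinAt ?_
    have h1 : ∀ᶠ z in 𝓝 z₀, s z w₀ = s z₀ w₀ * (g z w₀ / g z₀ w₀) ^ (2⁻¹ : ℂ) := by
      have h2 : Tendsto (fun z : ℂ => (z, w₀)) (𝓝 z₀) (𝓝 (z₀, w₀)) :=
        (Continuous.prodMk_left w₀).continuousAt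
      exact h2.eventually (key z₀ hz₀ w₀ hw₀)
    have h2 : DifferentiableAt ℂ (fun z => g z w₀ / g z₀ w₀) z₀ :=
      ((hg1 w₀ hw₀).differentiableAt (hDo.mem_nhds hz₀)).div_const _
    have h3 : DifferentiableAt ℂ (fun z => (g z w₀ / g z₀ w₀) ^ (2⁻¹ : ℂ)) z₀ :=
      h2.cpow (differentiableAt_const _) (hslit z₀ hz₀ w₀ hw₀)
    exact (h3.const_mul (s z₀ w₀)).congr_of_eventuallyEq h1
  · intro z hz
    exact (hs z hz).1
  · rintro ⟨z, w⟩ ⟨hz, hw⟩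
    exact (hs z hz).2.1 w hw
  · rw [(hs 0 h0).2.2, hs10]

end Pool.Agent.Helper16.QCM
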